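import Pool.Agent.Lib.MP_afdd4d_co.K10.DK.Geo
import Pool.Agent.Lib.MP_afdd4d_co.K10.DK.Lks
import Pool.Agent.Lib.MP_afdd4d_co.K10.DK.T1
import Pool.Agent.Lib.MP_afdd4d_co.K10.DK.T2
import Pool.Agent.Lib.MP_afdd4d_co.K10.DK.T3
import Pool.Agent.Lib.MP_afdd4d_co.K10.DK.T4
import Pool.Agent.Lib.MP_afdd4d_co.K10.DK.T5

/-!
# The tables
-/

namespace Pool.Agent.Lib.MP_afdd4d_co.K10.DK

set_option maxRecDepth 100000
set_option exponentiation.threshold 10000000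

open Pool.Agent.Lib.MP_afdd4d_co.K8

/-- The tables. -/
def D : TF where
  W := 64
  w := 22
  of := 2
  fo := 2097152
  kv := 21
  kb := 43
  tp := [[], l1, l2, l3, l4, l5]
  tab := tab
  prg := prg

end Pool.Agent.Lib.MP_afdd4d_co.K10.DK
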