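import Pool.Agent.Lib.MP_afdd4d_co.K8.F6Dg
import Pool.Agent.Lib.MP_afdd4d_co.K10.DK.Dat

/-!
# The matrix of the type 5
-/

namespace Pool.Agent.Lib.MP_afdd4d_co.K10.DK

set_option maxRecDepth 100000
set_option exponentiation.threshold 10000000

open Pool.Agent.Lib.MP_afdd4d_co.K8

/-- The offsets of the factor. -/
def cw5 : ℕ := Nat.add 0x1000000000000000100000000000000010000000000000001000000000000000100000000000000010000000000000001000000000000000100000000000000010000000000000001000000000000000100000000000000010000000000000001000000000000000100000000000000010000000000000001000 (Nat.shiftLeft (Nat.add 0x1000000000000000100000000000000010000000000000001000000000000000100000000000000010000000000000001000000000000000100000000000000010000000000000001000000000000000100000000000000010000000000000001000000000000000100000000000000010000000000000001000 (Nat.shiftLeft (Nat.add 0x1000000000000000100000000000000010000000000000001000000000000000100000000000000010000000000000001000000000000000100000000000000010000000000000001000000000000000100000000000000010000000000000001000000000000000100000000000000010000000000000001000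 (Nat.shiftLeft (Nat.add 0x1000000000000000100000000000000010000000000000001000000000000000100000000000000010000000000000001000000000000000100000000000000010000000000000001000000000000000100000000000000010000000000000001000000000000000100000000000000010000000000000001000 (Nat.shiftLeft (Nat.add 0x1000000000000000100000000000000010000000000000001000000000000000100000000000000010000000000000001000000000000000100000000000000010000000000000001000000000000000100000000000000010000000000000001000000000000000100000000000000010000000000000001000 (Nat.shiftLeft (Nat.add 0x1000000000000000100000000000000010000000000000001000000000000000100000000000000010000000000000001000000000000000100000000000000010000000000000001000000000000000100000000000000010000000000000001000000000000000100000000000000010000000000000001000 (Nat.shiftLeft (Nat.add 0x1000000000000000100000000000000010000000000000001000000000000000100000000000000010000000000000001000000000000000100000000000000010000000000000001000000000000000100000000000000010000000000000001000000000000000100000000000000010000000000000001000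 (Nat.shiftLeft (Nat.add 0x1000000000000000100000000000000010000000000000001000000000000000100000000000000010000000000000001000000000000000100000000000000010000000000000001000000000000000100000000000000010000000000000001000000000000000100000000000000010000000000000001000 (Nat.shiftLeft (Nat.add 0x1000000000000000100000000000000010000000000000001000000000000000100000000000000010000000000000001000000000000000100000000000000010000000000000001000000000000000100000000000000010000000000000001000000000000000100000000000000010000000000000001000 (Nat.shiftLeft (Nat.add 0x1000000000000000100000000000000010000000000000001000000000000000100000000000000010000000000000001000000000000000100000000000000010000000000000001000000000000000100000000000000010000000000000001000000000000000100000000000000010000000000000001000 (Nat.shiftLeft (Nat.add 0x1000000000000000100000000000000010000000000000001000000000000000100000000000000010000000000000001000000000000000100000000000000010000000000000001000000000000000100000000000000010000000000000001000000000000000100000000000000010000000000000001000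 (Nat.shiftLeft (Nat.add 0x1000000000000000100000000000000010000000000000001000000000000000100000000000000010000000000000001000000000000000100000000000000010000000000000001000000000000000100000000000000010000000000000001000000000000000100000000000000010000000000000001000 (Nat.shiftLeft 0x10000000000000001000000000000000100000000000000010000000000000001000000000000000100000000000000010000000000000001000 1024)) 1024)) 1024)) 1024)) 1024)) 1024)) 1024)) 1024)) 1024)) 1024)) 1024)) 1024)
def w5_0 : ℕ := Nat.add cw5 (Nat.shiftLeft 3187 0)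
def w5_1 : ℕ := Nat.add cw5 (Nat.shiftLeft 3187 64)
def w5_2 : ℕ := Nat.add cw5 (Nat.shiftLeft 3187 128)
def w5_3 : ℕ := Nat.add cw5 (Nat.shiftLeft 3187 192)
def w5_4 : ℕ := Nat.add cw5 (Nat.shiftLeft 3187 256)
def w5_5 : ℕ := Nat.add cw5 (Nat.shiftLeft 3187 320)
def w5_6 : ℕ := Nat.add cw5 (Nat.shiftLeft 3187 384)
def w5_7 : ℕ := Nat.add cw5 (Nat.shiftLeft 3187 448)
def w5_8 : ℕ := Nat.add cw5 (Nat.shiftLeft 3187 512)
def w5_9 : ℕ := Nat.add cw5 (Nat.shiftLeft 3187 576)
def w5_10 : ℕ := Nat.add cw5 (Nat.shiftLeft 3187 640)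
def w5_11 : ℕ := Nat.add cw5 (Nat.shiftLeft 3187 704)
def w5_12 : ℕ := Nat.add cw5 (Nat.shiftLeft 3187 768)
def w5_13 : ℕ := Nat.add cw5 (Nat.shiftLeft 3187 832)
def w5_14 : ℕ := Nat.add cw5 (Nat.shiftLeft 3187 896)
def w5_15 : ℕ := Nat.add cw5 (Nat.shiftLeft 3187 960)
def w5_16 : ℕ := Nat.add cw5 (Nat.shiftLeft 3187 1024)
def w5_17 : ℕ := Nat.add cw5 (Nat.shiftLeft 3187 1088)
def w5_18 : ℕ := Nat.add cw5 (Nat.shiftLeft 3187 1152)
def w5_19 : ℕ := Nat.add cw5 (Nat.shiftLeft 3187 1216)
def w5_20 : ℕ := Nat.add cw5 (Nat.shiftLeft 3187 1280)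
def w5_21 : ℕ := Nat.add cw5 (Nat.shiftLeft 3187 1344)
def w5_22 : ℕ := Nat.add cw5 (Nat.shiftLeft 3187 1408)
def w5_23 : ℕ := Nat.add cw5 (Nat.shiftLeft 3187 1472)
def w5_24 : ℕ := Nat.add cw5 (Nat.shiftLeft 3187 1536)
def w5_25 : ℕ := Nat.add cw5 (Nat.shiftLeft 3187 1600)
def w5_26 : ℕ := Nat.add cw5 (Nat.shiftLeft 3187 1664)
def w5_27 : ℕ := Nat.add cw5 (Nat.shiftLeft 3187 1728)
def w5_28 : ℕ := Nat.add cw5 (Nat.shiftLeft 3187 1792)
def w5_29 : ℕ := Nat.add cw5 (Nat.shiftLeft 3187 1856)
def w5_30 : ℕ := Nat.add cw5 (Nat.shiftLeft 3187 1920)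
def w5_31 : ℕ := Nat.add cw5 (Nat.shiftLeft 3187 1984)
def w5_32 : ℕ := Nat.add cw5 (Nat.shiftLeft 3187 2048)
def w5_33 : ℕ := Nat.add cw5 (Nat.shiftLeft 3187 2112)
def w5_34 : ℕ := Nat.add cw5 (Nat.shiftLeft 3187 2176)
def w5_35 : ℕ := Nat.add cw5 (Nat.shiftLeft 3187 2240)
def w5_36 : ℕ := Nat.add cw5 (Nat.shiftLeft 3187 2304)
def w5_37 : ℕ := Nat.add cw5 (Nat.shiftLeft 3187 2368)
def w5_38 : ℕ := Nat.add cw5 (Nat.shiftLeft 3187 2432)
def w5_39 : ℕ := Nat.add cw5 (Nat.shiftLeft 3187 2496)
def w5_40 : ℕ := Nat.add cw5 (Nat.shiftLeft 3187 2560)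
def w5_41 : ℕ := Nat.add cw5 (Nat.shiftLeft 3187 2624)
def w5_42 : ℕ := Nat.add cw5 (Nat.shiftLeft 3187 2688)
def w5_43 : ℕ := Nat.add cw5 (Nat.shiftLeft 3187 2752)
def w5_44 : ℕ := Nat.add cw5 (Nat.shiftLeft 3187 2816)
def w5_45 : ℕ := Nat.add cw5 (Nat.shiftLeft 3187 2880)
def w5_46 : ℕ := Nat.add cw5 (Nat.shiftLeft 3187 2944)
def w5_47 : ℕ := Nat.add cw5 (Nat.shiftLeft 3187 3008)
def w5_48 : ℕ := Nat.add cw5 (Nat.shiftLeft 3187 3072)
def w5_49 : ℕ := Nat.add cw5 (Nat.shiftLeft 3187 3136)
def w5_50 : ℕ := Nat.add cw5 (Nat.shiftLeft 3187 3200)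
def w5_51 : ℕ := Nat.add cw5 (Nat.shiftLeft 3187 3264)
def w5_52 : ℕ := Nat.add cw5 (Nat.shiftLeft 3187 3328)
def w5_53 : ℕ := Nat.add cw5 (Nat.shiftLeft 3187 3392)
def w5_54 : ℕ := Nat.add cw5 (Nat.shiftLeft 3187 3456)
def w5_55 : ℕ := Nat.add cw5 (Nat.shiftLeft 3187 3520)
def w5_56 : ℕ := Nat.add cw5 (Nat.shiftLeft 3187 3584)
def w5_57 : ℕ := Nat.add cw5 (Nat.shiftLeft 3187 3648)
def w5_58 : ℕ := Nat.add cw5 (Nat.shiftLeft 3187 3712)
def w5_59 : ℕ := Nat.add cw5 (Nat.shiftLeft 3187 3776)
def w5_60 : ℕ := Nat.add cw5 (Nat.shiftLeft 3187 3840)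
def w5_61 : ℕ := Nat.add cw5 (Nat.shiftLeft 3187 3904)
def w5_62 : ℕ := Nat.add cw5 (Nat.shiftLeft 3187 3968)
def w5_63 : ℕ := Nat.add cw5 (Nat.shiftLeft 3187 4032)
def w5_64 : ℕ := Nat.add cw5 (Nat.shiftLeft 3187 4096)
def w5_65 : ℕ := Nat.add cw5 (Nat.shiftLeft 3187 4160)
def w5_66 : ℕ := Nat.add cw5 (Nat.shiftLeft 3187 4224)
def w5_67 : ℕ := Nat.add cw5 (Nat.shiftLeft 3187 4288)
def w5_68 : ℕ := Nat.add cw5 (Nat.shiftLeft 3187 4352)
def w5_69 : ℕ := Nat.add cw5 (Nat.shiftLeft 3187 4416)
def w5_70 : ℕ := Nat.add cw5 (Nat.shiftLeft 3187 4480)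
def w5_71 : ℕ := Nat.add cw5 (Nat.shiftLeft 3187 4544)
def w5_72 : ℕ := Nat.add cw5 (Nat.shiftLeft 3187 4608)
def w5_73 : ℕ := Nat.add cw5 (Nat.shiftLeft 3187 4672)
def w5_74 : ℕ := Nat.add cw5 (Nat.shiftLeft 3187 4736)
def w5_75 : ℕ := Nat.add cw5 (Nat.shiftLeft 3187 4800)
def w5_76 : ℕ := Nat.add cw5 (Nat.shiftLeft 3187 4864)
def w5_77 : ℕ := Nat.add cw5 (Nat.shiftLeft 3187 4928)
def w5_78 : ℕ := Nat.add cw5 (Nat.shiftLeft 3187 4992)
def w5_79 : ℕ := Nat.add cw5 (Nat.shiftLeft 3187 5056)
def w5_80 : ℕ := Nat.add cw5 (Nat.shiftLeft 3187 5120)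
def w5_81 : ℕ := Nat.add cw5 (Nat.shiftLeft 3187 5184)
def w5_82 : ℕ := Nat.add cw5 (Nat.shiftLeft 3187 5248)
def w5_83 : ℕ := Nat.add cw5 (Nat.shiftLeft 3187 5312)
def w5_84 : ℕ := Nat.add cw5 (Nat.shiftLeft 3187 5376)
def w5_85 : ℕ := Nat.add cw5 (Nat.shiftLeft 3187 5440)
def w5_86 : ℕ := Nat.add cw5 (Nat.shiftLeft 3187 5504)
def w5_87 : ℕ := Nat.add cw5 (Nat.shiftLeft 3187 5568)
def w5_88 : ℕ := Nat.add cw5 (Nat.shiftLeft 3187 5632)
def w5_89 : ℕ := Nat.add cw5 (Nat.shiftLeft 3187 5696)
def w5_90 : ℕ := Nat.add cw5 (Nat.shiftLeft 3187 5760)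
def w5_91 : ℕ := Nat.add cw5 (Nat.shiftLeft 3187 5824)
def w5_92 : ℕ := Nat.add cw5 (Nat.shiftLeft 3187 5888)
def w5_93 : ℕ := Nat.add cw5 (Nat.shiftLeft 3187 5952)
def w5_94 : ℕ := Nat.add cw5 (Nat.shiftLeft 3187 6016)
def w5_95 : ℕ := Nat.add cw5 (Nat.shiftLeft 3187 6080)
def w5_96 : ℕ := Nat.add cw5 (Nat.shiftLeft 3187 6144)
def w5_97 : ℕ := Nat.add cw5 (Nat.shiftLeft 3187 6208)
def w5_98 : ℕ := Nat.add cw5 (Nat.shiftLeft 3187 6272)
def w5_99 : ℕ := Nat.add cw5 (Nat.shiftLeft 3187 6336)
def w5_100 : ℕ := Nat.add cw5 (Nat.shiftLeft 3187 6400)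
def w5_101 : ℕ := Nat.add cw5 (Nat.shiftLeft 3187 6464)
def w5_102 : ℕ := Nat.add cw5 (Nat.shiftLeft 3187 6528)
def w5_103 : ℕ := Nat.add cw5 (Nat.shiftLeft 3187 6592)
def w5_104 : ℕ := Nat.add cw5 (Nat.shiftLeft 3187 6656)
def w5_105 : ℕ := Nat.add cw5 (Nat.shiftLeft 3187 6720)
def w5_106 : ℕ := Nat.add cw5 (Nat.shiftLeft 3187 6784)
def w5_107 : ℕ := Nat.add cw5 (Nat.shiftLeft 3187 6848)
def w5_108 : ℕ := Nat.add cw5 (Nat.shiftLeft 3187 6912)
def w5_109 : ℕ := Nat.add cw5 (Nat.shiftLeft 3187 6976)
def w5_110 : ℕ := Nat.add cw5 (Nat.shiftLeft 3187 7040)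
def w5_111 : ℕ := Nat.add cw5 (Nat.shiftLeft 3187 7104)
def w5_112 : ℕ := Nat.add cw5 (Nat.shiftLeft 3187 7168)
def w5_113 : ℕ := Nat.add cw5 (Nat.shiftLeft 3187 7232)
def w5_114 : ℕ := Nat.add cw5 (Nat.shiftLeft 3187 7296)
def w5_115 : ℕ := Nat.add cw5 (Nat.shiftLeft 3187 7360)
def w5_116 : ℕ := Nat.add cw5 (Nat.shiftLeft 3187 7424)
def w5_117 : ℕ := Nat.add cw5 (Nat.shiftLeft 3187 7488)
def w5_118 : ℕ := Nat.add cw5 (Nat.shiftLeft 3187 7552)
def w5_119 : ℕ := Nat.add cw5 (Nat.shiftLeft 3187 7616)
def w5_120 : ℕ := Nat.add cw5 (Nat.shiftLeft 3187 7680)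
def w5_121 : ℕ := Nat.add cw5 (Nat.shiftLeft 3187 7744)
def w5_122 : ℕ := Nat.add cw5 (Nat.shiftLeft 3187 7808)
def w5_123 : ℕ := Nat.add cw5 (Nat.shiftLeft 3187 7872)
def w5_124 : ℕ := Nat.add cw5 (Nat.shiftLeft 3187 7936)
def w5_125 : ℕ := Nat.add cw5 (Nat.shiftLeft 3187 8000)
def w5_126 : ℕ := Nat.add cw5 (Nat.shiftLeft 3187 8064)
def w5_127 : ℕ := Nat.add cw5 (Nat.shiftLeft 3187 8128)
def w5_128 : ℕ := Nat.add cw5 (Nat.shiftLeft 3187 8192)
def w5_129 : ℕ := Nat.add cw5 (Nat.shiftLeft 3187 8256)
def w5_130 : ℕ := Nat.add cw5 (Nat.shiftLeft 3187 8320)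
def w5_131 : ℕ := Nat.add cw5 (Nat.shiftLeft 3187 8384)
def w5_132 : ℕ := Nat.add cw5 (Nat.shiftLeft 3187 8448)
def w5_133 : ℕ := Nat.add cw5 (Nat.shiftLeft 3187 8512)
def w5_134 : ℕ := Nat.add cw5 (Nat.shiftLeft 3187 8576)
def w5_135 : ℕ := Nat.add cw5 (Nat.shiftLeft 3187 8640)
def w5_136 : ℕ := Nat.add cw5 (Nat.shiftLeft 3187 8704)
def w5_137 : ℕ := Nat.add cw5 (Nat.shiftLeft 3187 8768)
def w5_138 : ℕ := Nat.add cw5 (Nat.shiftLeft 3187 8832)
def w5_139 : ℕ := Nat.add cw5 (Nat.shiftLeft 3187 8896)
def w5_140 : ℕ := Nat.add cw5 (Nat.shiftLeft 3187 8960)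
def w5_141 : ℕ := Nat.add cw5 (Nat.shiftLeft 3187 9024)
def w5_142 : ℕ := Nat.add cw5 (Nat.shiftLeft 3187 9088)
def w5_143 : ℕ := Nat.add cw5 (Nat.shiftLeft 3187 9152)
def w5_144 : ℕ := Nat.add cw5 (Nat.shiftLeft 3187 9216)
def w5_145 : ℕ := Nat.add cw5 (Nat.shiftLeft 3187 9280)
def w5_146 : ℕ := Nat.add cw5 (Nat.shiftLeft 3187 9344)
def w5_147 : ℕ := Nat.add cw5 (Nat.shiftLeft 3187 9408)
def w5_148 : ℕ := Nat.add cw5 (Nat.shiftLeft 3187 9472)
def w5_149 : ℕ := Nat.add cw5 (Nat.shiftLeft 3187 9536)
def w5_150 : ℕ := Nat.add cw5 (Nat.shiftLeft 3187 9600)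
def w5_151 : ℕ := Nat.add cw5 (Nat.shiftLeft 3187 9664)
def w5_152 : ℕ := Nat.add cw5 (Nat.shiftLeft 3187 9728)
def w5_153 : ℕ := Nat.add cw5 (Nat.shiftLeft 3187 9792)
def w5_154 : ℕ := Nat.add cw5 (Nat.shiftLeft 3187 9856)
def w5_155 : ℕ := Nat.add cw5 (Nat.shiftLeft 3187 9920)
def w5_156 : ℕ := Nat.add cw5 (Nat.shiftLeft 3187 9984)
def w5_157 : ℕ := Nat.add cw5 (Nat.shiftLeft 3187 10048)
def w5_158 : ℕ := Nat.add cw5 (Nat.shiftLeft 3187 10112)
def w5_159 : ℕ := Nat.add cw5 (Nat.shiftLeft 3187 10176)
def w5_160 : ℕ := Nat.add cw5 (Nat.shiftLeft 3187 10240)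
def w5_161 : ℕ := Nat.add cw5 (Nat.shiftLeft 3187 10304)
def w5_162 : ℕ := Nat.add cw5 (Nat.shiftLeft 3187 10368)
def w5_163 : ℕ := Nat.add cw5 (Nat.shiftLeft 3187 10432)
def w5_164 : ℕ := Nat.add cw5 (Nat.shiftLeft 3187 10496)
def w5_165 : ℕ := Nat.add cw5 (Nat.shiftLeft 3187 10560)
def w5_166 : ℕ := Nat.add cw5 (Nat.shiftLeft 3187 10624)
def w5_167 : ℕ := Nat.add cw5 (Nat.shiftLeft 3187 10688)
def w5_168 : ℕ := Nat.add cw5 (Nat.shiftLeft 3187 10752)
def w5_169 : ℕ := Nat.add cw5 (Nat.shiftLeft 3187 10816)
def w5_170 : ℕ := Nat.add cw5 (Nat.shiftLeft 3187 10880)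
def w5_171 : ℕ := Nat.add cw5 (Nat.shiftLeft 3187 10944)
def w5_172 : ℕ := Nat.add cw5 (Nat.shiftLeft 3187 11008)
def w5_173 : ℕ := Nat.add cw5 (Nat.shiftLeft 3187 11072)
def w5_174 : ℕ := Nat.add cw5 (Nat.shiftLeft 3187 11136)
def w5_175 : ℕ := Nat.add cw5 (Nat.shiftLeft 3187 11200)
def w5_176 : ℕ := Nat.add cw5 (Nat.shiftLeft 3187 11264)
def w5_177 : ℕ := Nat.add cw5 (Nat.shiftLeft 3187 11328)
def w5_178 : ℕ := Nat.add cw5 (Nat.shiftLeft 3187 11392)
def w5_179 : ℕ := Nat.add cw5 (Nat.shiftLeft 3187 11456)
def w5_180 : ℕ := Nat.add cw5 (Nat.shiftLeft 3187 11520)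
def w5_181 : ℕ := Nat.add cw5 (Nat.shiftLeft 3187 11584)
def w5_182 : ℕ := Nat.add cw5 (Nat.shiftLeft 3187 11648)
def w5_183 : ℕ := Nat.add cw5 (Nat.shiftLeft 3187 11712)
def w5_184 : ℕ := Nat.add cw5 (Nat.shiftLeft 3187 11776)
def w5_185 : ℕ := Nat.add cw5 (Nat.shiftLeft 3187 11840)
def w5_186 : ℕ := Nat.add cw5 (Nat.shiftLeft 3187 11904)
def w5_187 : ℕ := Nat.add cw5 (Nat.shiftLeft 3187 11968)
def w5_188 : ℕ := Nat.add cw5 (Nat.shiftLeft 3187 12032)
def w5_189 : ℕ := Nat.add cw5 (Nat.shiftLeft 3187 12096)
def w5_190 : ℕ := Nat.add cw5 (Nat.shiftLeft 3187 12160)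
def w5_191 : ℕ := Nat.add cw5 (Nat.shiftLeft 3187 12224)
def w5_192 : ℕ := Nat.add cw5 (Nat.shiftLeft 3187 12288)
def w5_193 : ℕ := Nat.add cw5 (Nat.shiftLeft 3187 12352)
def w5_194 : ℕ := Nat.add cw5 (Nat.shiftLeft 3187 12416)
def w5_195 : ℕ := Nat.add cw5 (Nat.shiftLeft 3187 12480)
def w5_196 : ℕ := Nat.add cw5 (Nat.shiftLeft 3187 12544)
def w5_197 : ℕ := Nat.add cw5 (Nat.shiftLeft 3187 12608)
def w5_198 : ℕ := Nat.add cw5 (Nat.shiftLeft 3187 12672)
def w5_199 : ℕ := Nat.add cw5 (Nat.shiftLeft 3187 12736)
/-- The indicator. -/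
def ind5 : ℕ := Nat.add 0x100000000000000000000000000000001000000000000000000000000000000010000000000000000000000000000000100000000000000000000000000000001000000000000000000000000000000010000000000000000000000000000000100000000000000000000000000000001 (Nat.shiftLeft (Nat.add 0x100000000000000000000000000000001000000000000000000000000000000010000000000000000000000000000000100000000000000000000000000000001000000000000000000000000000000010000000000000000000000000000000100000000000000000000000000000001 (Nat.shiftLeft (Nat.add 0x100000000000000000000000000000001000000000000000000000000000000010000000000000000000000000000000100000000000000000000000000000001000000000000000000000000000000010000000000000000000000000000000100000000000000000000000000000001 (Nat.shiftLeft (Nat.add 0x100000000000000000000000000000001000000000000000000000000000000010000000000000000000000000000000100000000000000000000000000000001000000000000000000000000000000010000000000000000000000000000000100000000000000000000000000000001 (Nat.shiftLeft (Nat.add 0x100000000000000000000000000000001000000000000000000000000000000010000000000000000000000000000000100000000000000000000000000000001000000000000000000000000000000010000000000000000000000000000000100000000000000000000000000000001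 (Nat.shiftLeft (Nat.add 0x100000000000000000000000000000001000000000000000000000000000000010000000000000000000000000000000100000000000000000000000000000001000000000000000000000000000000010000000000000000000000000000000100000000000000000000000000000001 (Nat.shiftLeft (Nat.add 0x100000000000000000000000000000001000000000000000000000000000000010000000000000000000000000000000100000000000000000000000000000001000000000000000000000000000000010000000000000000000000000000000100000000000000000000000000000001 (Nat.shiftLeft (Nat.add 0x100000000000000000000000000000001000000000000000000000000000000010000000000000000000000000000000100000000000000000000000000000001000000000000000000000000000000010000000000000000000000000000000100000000000000000000000000000001 (Nat.shiftLeft (Nat.add 0x100000000000000000000000000000001000000000000000000000000000000010000000000000000000000000000000100000000000000000000000000000001000000000000000000000000000000010000000000000000000000000000000100000000000000000000000000000001 (Nat.shiftLeft (Nat.add 0x100000000000000000000000000000001000000000000000000000000000000010000000000000000000000000000000100000000000000000000000000000001000000000000000000000000000000010000000000000000000000000000000100000000000000000000000000000001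 (Nat.shiftLeft (Nat.add 0x100000000000000000000000000000001000000000000000000000000000000010000000000000000000000000000000100000000000000000000000000000001000000000000000000000000000000010000000000000000000000000000000100000000000000000000000000000001 (Nat.shiftLeft (Nat.add 0x100000000000000000000000000000001000000000000000000000000000000010000000000000000000000000000000100000000000000000000000000000001000000000000000000000000000000010000000000000000000000000000000100000000000000000000000000000001 (Nat.shiftLeft (Nat.add 0x100000000000000000000000000000001000000000000000000000000000000010000000000000000000000000000000100000000000000000000000000000001000000000000000000000000000000010000000000000000000000000000000100000000000000000000000000000001 (Nat.shiftLeft (Nat.add 0x100000000000000000000000000000001000000000000000000000000000000010000000000000000000000000000000100000000000000000000000000000001000000000000000000000000000000010000000000000000000000000000000100000000000000000000000000000001 (Nat.shiftLeft (Nat.add 0x100000000000000000000000000000001000000000000000000000000000000010000000000000000000000000000000100000000000000000000000000000001000000000000000000000000000000010000000000000000000000000000000100000000000000000000000000000001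 (Nat.shiftLeft (Nat.add 0x100000000000000000000000000000001000000000000000000000000000000010000000000000000000000000000000100000000000000000000000000000001000000000000000000000000000000010000000000000000000000000000000100000000000000000000000000000001 (Nat.shiftLeft (Nat.add 0x100000000000000000000000000000001000000000000000000000000000000010000000000000000000000000000000100000000000000000000000000000001000000000000000000000000000000010000000000000000000000000000000100000000000000000000000000000001 (Nat.shiftLeft (Nat.add 0x100000000000000000000000000000001000000000000000000000000000000010000000000000000000000000000000100000000000000000000000000000001000000000000000000000000000000010000000000000000000000000000000100000000000000000000000000000001 (Nat.shiftLeft (Nat.add 0x100000000000000000000000000000001000000000000000000000000000000010000000000000000000000000000000100000000000000000000000000000001000000000000000000000000000000010000000000000000000000000000000100000000000000000000000000000001 (Nat.shiftLeft (Nat.add 0x100000000000000000000000000000001000000000000000000000000000000010000000000000000000000000000000100000000000000000000000000000001000000000000000000000000000000010000000000000000000000000000000100000000000000000000000000000001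 (Nat.shiftLeft (Nat.add 0x100000000000000000000000000000001000000000000000000000000000000010000000000000000000000000000000100000000000000000000000000000001000000000000000000000000000000010000000000000000000000000000000100000000000000000000000000000001 (Nat.shiftLeft (Nat.add 0x100000000000000000000000000000001000000000000000000000000000000010000000000000000000000000000000100000000000000000000000000000001000000000000000000000000000000010000000000000000000000000000000100000000000000000000000000000001 (Nat.shiftLeft (Nat.add 0x100000000000000000000000000000001000000000000000000000000000000010000000000000000000000000000000100000000000000000000000000000001000000000000000000000000000000010000000000000000000000000000000100000000000000000000000000000001 (Nat.shiftLeft (Nat.add 0x100000000000000000000000000000001000000000000000000000000000000010000000000000000000000000000000100000000000000000000000000000001000000000000000000000000000000010000000000000000000000000000000100000000000000000000000000000001 (Nat.shiftLeft 0x100000000000000000000000000000001000000000000000000000000000000010000000000000000000000000000000100000000000000000000000000000001000000000000000000000000000000010000000000000000000000000000000100000000000000000000000000000001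 1024)) 1024)) 1024)) 1024)) 1024)) 1024)) 1024)) 1024)) 1024)) 1024)) 1024)) 1024)) 1024)) 1024)) 1024)) 1024)) 1024)) 1024)) 1024)) 1024)) 1024)) 1024)) 1024)) 1024)

/-- The factorisation of the type 5. -/
def F5 : PD where
  Dn := 16777216
  t := 0
  k := 12
  ws := [
    w5_0, w5_1, w5_2, w5_3, w5_4, w5_5, w5_6, w5_7, w5_8, w5_9, w5_10, w5_11, w5_12, w5_13,
    w5_14, w5_15, w5_16, w5_17, w5_18, w5_19, w5_20, w5_21, w5_22, w5_23, w5_24, w5_25, w5_26,
    w5_27, w5_28, w5_29, w5_30, w5_31, w5_32, w5_33, w5_34, w5_35, w5_36, w5_37, w5_38, w5_39,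
    w5_40, w5_41, w5_42, w5_43, w5_44, w5_45, w5_46, w5_47, w5_48, w5_49, w5_50, w5_51, w5_52,
    w5_53, w5_54, w5_55, w5_56, w5_57, w5_58, w5_59, w5_60, w5_61, w5_62, w5_63, w5_64, w5_65,
    w5_66, w5_67, w5_68, w5_69, w5_70, w5_71, w5_72, w5_73, w5_74, w5_75, w5_76, w5_77, w5_78,
    w5_79, w5_80, w5_81, w5_82, w5_83, w5_84, w5_85, w5_86, w5_87, w5_88, w5_89, w5_90, w5_91,
    w5_92, w5_93, w5_94, w5_95, w5_96, w5_97, w5_98, w5_99, w5_100, w5_101, w5_102, w5_103,
    w5_104, w5_105, w5_106, w5_107, w5_108, w5_109, w5_110, w5_111, w5_112, w5_113, w5_114,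
    w5_115, w5_116, w5_117, w5_118, w5_119, w5_120, w5_121, w5_122, w5_123, w5_124, w5_125,
    w5_126, w5_127, w5_128, w5_129, w5_130, w5_131, w5_132, w5_133, w5_134, w5_135, w5_136,
    w5_137, w5_138, w5_139, w5_140, w5_141, w5_142, w5_143, w5_144, w5_145, w5_146, w5_147,
    w5_148, w5_149, w5_150, w5_151, w5_152, w5_153, w5_154, w5_155, w5_156, w5_157, w5_158,
    w5_159, w5_160, w5_161, w5_162, w5_163, w5_164, w5_165, w5_166, w5_167, w5_168, w5_169,
    w5_170, w5_171, w5_172, w5_173, w5_174, w5_175, w5_176, w5_177, w5_178, w5_179, w5_180,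
    w5_181, w5_182, w5_183, w5_184, w5_185, w5_186, w5_187, w5_188, w5_189, w5_190, w5_191,
    w5_192, w5_193, w5_194, w5_195, w5_196, w5_197, w5_198, w5_199]
  ind := ind5
  nul := []

theorem ty5 : D.tyF 1 21 l5 = true := by decide +kernel

theorem pd5_d : F5.chkD 64 2 100 (rwsG l5) = true := by decide +kernel

/-- The offsets. -/
def C5 : ℕ := cr5

theorem pd5_s : dg6G 64 2 C5 (rwsG l5) = true := by decide +kernel

theorem pd5_z : F5.chk0 64 2 100 (rwsG l5) = true :=
  PD.chk0_of F5 64 2 C5 100 (rwsG l5) (by norm_num) (by norm_num) pd5_d pd5_s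

theorem pd5_0 : F5.chkP 64 2 100 (rwsG l5) 40 0 = true := by decide +kernel

theorem pd5_1 : F5.chkP 64 2 100 (rwsG l5) 40 1 = true := by decide +kernel

theorem pd5_2 : F5.chkP 64 2 100 (rwsG l5) 40 2 = true := by decide +kernel

theorem pd5_3 : F5.chkP 64 2 100 (rwsG l5) 40 3 = true := by decide +kernel

theorem pd5_4 : F5.chkP 64 2 100 (rwsG l5) 40 4 = true := by decide +kernel

theorem pl5 : Nat.ble (rwsG l5).length 200 = true := by decide +kernel

theorem pd5 : F5.chk 64 2 100 (rwsG l5) = true := by
  refine PD.chk_of F5 64 2 100 (rwsG l5) 40 5 pd5_z (Nat.le_of_ble_eq_true pl5) fun j hj => ?_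
  interval_cases j
  · exact pd5_0
  · exact pd5_1
  · exact pd5_2
  · exact pd5_3
  · exact pd5_4

end Pool.Agent.Lib.MP_afdd4d_co.K10.DK
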