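import Pool.Agent.Lib.MP_afdd4d_co.K8.KFInv
import Pool.Agent.Lib.MP_afdd4d_co.K8.F6Chk
import Pool.Agent.Lib.MP_afdd4d_co.K10.DK.Dat
import Pool.Agent.Lib.MP_afdd4d_co.K10.DK.Q1
import Pool.Agent.Lib.MP_afdd4d_co.K10.DK.Q2
import Pool.Agent.Lib.MP_afdd4d_co.K10.DK.Q3
import Pool.Agent.Lib.MP_afdd4d_co.K10.DK.Q4
import Pool.Agent.Lib.MP_afdd4d_co.K10.DK.Q5
import Pool.Agent.Lib.MP_afdd4d_co.K10.DK.Z1_0
import Pool.Agent.Lib.MP_afdd4d_co.K10.DK.Z1_1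
import Pool.Agent.Lib.MP_afdd4d_co.K10.DK.Z1_2
import Pool.Agent.Lib.MP_afdd4d_co.K10.DK.Z1_3
import Pool.Agent.Lib.MP_afdd4d_co.K10.DK.Z1_4
import Pool.Agent.Lib.MP_afdd4d_co.K10.DK.Z1_5
import Pool.Agent.Lib.MP_afdd4d_co.K10.DK.Z1_6
import Pool.Agent.Lib.MP_afdd4d_co.K10.DK.Z1_7
import Pool.Agent.Lib.MP_afdd4d_co.K10.DK.Z1_8
import Pool.Agent.Lib.MP_afdd4d_co.K10.DK.Z2_0
import Pool.Agent.Lib.MP_afdd4d_co.K10.DK.Z2_1
import Pool.Agent.Lib.MP_afdd4d_co.K10.DK.Z2_2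
import Pool.Agent.Lib.MP_afdd4d_co.K10.DK.Z2_3
import Pool.Agent.Lib.MP_afdd4d_co.K10.DK.Z2_4
import Pool.Agent.Lib.MP_afdd4d_co.K10.DK.Z2_5
import Pool.Agent.Lib.MP_afdd4d_co.K10.DK.Z2_6
import Pool.Agent.Lib.MP_afdd4d_co.K10.DK.Z2_7
import Pool.Agent.Lib.MP_afdd4d_co.K10.DK.Z2_8
import Pool.Agent.Lib.MP_afdd4d_co.K10.DK.Z3_0
import Pool.Agent.Lib.MP_afdd4d_co.K10.DK.Z3_1
import Pool.Agent.Lib.MP_afdd4d_co.K10.DK.Z3_2
import Pool.Agent.Lib.MP_afdd4d_co.K10.DK.Z3_3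
import Pool.Agent.Lib.MP_afdd4d_co.K10.DK.Z3_4
import Pool.Agent.Lib.MP_afdd4d_co.K10.DK.Z3_5
import Pool.Agent.Lib.MP_afdd4d_co.K10.DK.Z3_6
import Pool.Agent.Lib.MP_afdd4d_co.K10.DK.Z3_7
import Pool.Agent.Lib.MP_afdd4d_co.K10.DK.Z3_8
import Pool.Agent.Lib.MP_afdd4d_co.K10.DK.Z4_0
import Pool.Agent.Lib.MP_afdd4d_co.K10.DK.Z4_1
import Pool.Agent.Lib.MP_afdd4d_co.K10.DK.Z4_2
import Pool.Agent.Lib.MP_afdd4d_co.K10.DK.Z4_3
import Pool.Agent.Lib.MP_afdd4d_co.K10.DK.Z4_4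
import Pool.Agent.Lib.MP_afdd4d_co.K10.DK.Z4_5
import Pool.Agent.Lib.MP_afdd4d_co.K10.DK.Z4_6
import Pool.Agent.Lib.MP_afdd4d_co.K10.DK.Z4_7
import Pool.Agent.Lib.MP_afdd4d_co.K10.DK.Z4_8
import Pool.Agent.Lib.MP_afdd4d_co.K10.DK.Z5_0
import Pool.Agent.Lib.MP_afdd4d_co.K10.DK.Z5_1
import Pool.Agent.Lib.MP_afdd4d_co.K10.DK.Z5_2
import Pool.Agent.Lib.MP_afdd4d_co.K10.DK.Z5_3
import Pool.Agent.Lib.MP_afdd4d_co.K10.DK.Z5_4
import Pool.Agent.Lib.MP_afdd4d_co.K10.DK.Z5_5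
import Pool.Agent.Lib.MP_afdd4d_co.K10.DK.Z5_6
import Pool.Agent.Lib.MP_afdd4d_co.K10.DK.Z5_7
import Pool.Agent.Lib.MP_afdd4d_co.K10.DK.Z5_8

/-!
# The conditions
-/

namespace Pool.Agent.Lib.MP_afdd4d_co.K10.DK

set_option maxRecDepth 100000
set_option exponentiation.threshold 10000000

open Pool.Agent.Lib.MP_afdd4d_co.K8

theorem num : D.numG = true := by decide +kernel

theorem zA1 : ∀ z < 1024, D.lbG 1 ls1 z = true := by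
  have h1 : ∀ i < 120, D.lbG 1 ls1 (lnG 16 P1 i) = true :=
    frG_join (fun i => D.lbG 1 ls1 (lnG 16 P1 i)) (fun i hi => absurd hi (Nat.not_lt_zero i)) z1_0 rfl
  have h2 : ∀ i < 240, D.lbG 1 ls1 (lnG 16 P1 i) = true :=
    frG_join (fun i => D.lbG 1 ls1 (lnG 16 P1 i)) h1 z1_1 rfl
  have h3 : ∀ i < 360, D.lbG 1 ls1 (lnG 16 P1 i) = true :=
    frG_join (fun i => D.lbG 1 ls1 (lnG 16 P1 i)) h2 z1_2 rfl
  have h4 : ∀ i < 480, D.lbG 1 ls1 (lnG 16 P1 i) = true :=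
    frG_join (fun i => D.lbG 1 ls1 (lnG 16 P1 i)) h3 z1_3 rfl
  have h5 : ∀ i < 600, D.lbG 1 ls1 (lnG 16 P1 i) = true :=
    frG_join (fun i => D.lbG 1 ls1 (lnG 16 P1 i)) h4 z1_4 rfl
  have h6 : ∀ i < 720, D.lbG 1 ls1 (lnG 16 P1 i) = true :=
    frG_join (fun i => D.lbG 1 ls1 (lnG 16 P1 i)) h5 z1_5 rfl
  have h7 : ∀ i < 840, D.lbG 1 ls1 (lnG 16 P1 i) = true :=
    frG_join (fun i => D.lbG 1 ls1 (lnG 16 P1 i)) h6 z1_6 rfl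
  have h8 : ∀ i < 959, D.lbG 1 ls1 (lnG 16 P1 i) = true :=
    frG_join (fun i => D.lbG 1 ls1 (lnG 16 P1 i)) h7 z1_7 rfl
  have h9 : ∀ i < 1024, D.lbG 1 ls1 (lnG 16 P1 i) = true :=
    frG_join (fun i => D.lbG 1 ls1 (lnG 16 P1 i)) h8 z1_8 rfl
  exact frG_all P1 1024 P1_ok _ h9

theorem zA2 : ∀ z < 1024, D.lbG 2 ls2 z = true := by
  have h1 : ∀ i < 120, D.lbG 2 ls2 (lnG 16 P2 i) = true :=
    frG_join (fun i => D.lbG 2 ls2 (lnG 16 P2 i)) (fun i hi => absurd hi (Nat.not_lt_zero i)) z2_0 rfl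
  have h2 : ∀ i < 240, D.lbG 2 ls2 (lnG 16 P2 i) = true :=
    frG_join (fun i => D.lbG 2 ls2 (lnG 16 P2 i)) h1 z2_1 rfl
  have h3 : ∀ i < 360, D.lbG 2 ls2 (lnG 16 P2 i) = true :=
    frG_join (fun i => D.lbG 2 ls2 (lnG 16 P2 i)) h2 z2_2 rfl
  have h4 : ∀ i < 480, D.lbG 2 ls2 (lnG 16 P2 i) = true :=
    frG_join (fun i => D.lbG 2 ls2 (lnG 16 P2 i)) h3 z2_3 rfl
  have h5 : ∀ i < 600, D.lbG 2 ls2 (lnG 16 P2 i) = true :=
    frG_join (fun i => D.lbG 2 ls2 (lnG 16 P2 i)) h4 z2_4 rfl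
  have h6 : ∀ i < 720, D.lbG 2 ls2 (lnG 16 P2 i) = true :=
    frG_join (fun i => D.lbG 2 ls2 (lnG 16 P2 i)) h5 z2_5 rfl
  have h7 : ∀ i < 840, D.lbG 2 ls2 (lnG 16 P2 i) = true :=
    frG_join (fun i => D.lbG 2 ls2 (lnG 16 P2 i)) h6 z2_6 rfl
  have h8 : ∀ i < 960, D.lbG 2 ls2 (lnG 16 P2 i) = true :=
    frG_join (fun i => D.lbG 2 ls2 (lnG 16 P2 i)) h7 z2_7 rfl
  have h9 : ∀ i < 1024, D.lbG 2 ls2 (lnG 16 P2 i) = true :=
    frG_join (fun i => D.lbG 2 ls2 (lnG 16 P2 i)) h8 z2_8 rfl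
  exact frG_all P2 1024 P2_ok _ h9

theorem zA3 : ∀ z < 1024, D.lbG 3 ls3 z = true := by
  have h1 : ∀ i < 120, D.lbG 3 ls3 (lnG 16 P3 i) = true :=
    frG_join (fun i => D.lbG 3 ls3 (lnG 16 P3 i)) (fun i hi => absurd hi (Nat.not_lt_zero i)) z3_0 rfl
  have h2 : ∀ i < 240, D.lbG 3 ls3 (lnG 16 P3 i) = true :=
    frG_join (fun i => D.lbG 3 ls3 (lnG 16 P3 i)) h1 z3_1 rfl
  have h3 : ∀ i < 360, D.lbG 3 ls3 (lnG 16 P3 i) = true :=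
    frG_join (fun i => D.lbG 3 ls3 (lnG 16 P3 i)) h2 z3_2 rfl
  have h4 : ∀ i < 480, D.lbG 3 ls3 (lnG 16 P3 i) = true :=
    frG_join (fun i => D.lbG 3 ls3 (lnG 16 P3 i)) h3 z3_3 rfl
  have h5 : ∀ i < 600, D.lbG 3 ls3 (lnG 16 P3 i) = true :=
    frG_join (fun i => D.lbG 3 ls3 (lnG 16 P3 i)) h4 z3_4 rfl
  have h6 : ∀ i < 720, D.lbG 3 ls3 (lnG 16 P3 i) = true :=
    frG_join (fun i => D.lbG 3 ls3 (lnG 16 P3 i)) h5 z3_5 rfl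
  have h7 : ∀ i < 840, D.lbG 3 ls3 (lnG 16 P3 i) = true :=
    frG_join (fun i => D.lbG 3 ls3 (lnG 16 P3 i)) h6 z3_6 rfl
  have h8 : ∀ i < 960, D.lbG 3 ls3 (lnG 16 P3 i) = true :=
    frG_join (fun i => D.lbG 3 ls3 (lnG 16 P3 i)) h7 z3_7 rfl
  have h9 : ∀ i < 1024, D.lbG 3 ls3 (lnG 16 P3 i) = true :=
    frG_join (fun i => D.lbG 3 ls3 (lnG 16 P3 i)) h8 z3_8 rfl
  exact frG_all P3 1024 P3_ok _ h9

theorem zA4 : ∀ z < 1024, D.lbG 4 ls4 z = true := by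
  have h1 : ∀ i < 120, D.lbG 4 ls4 (lnG 16 P4 i) = true :=
    frG_join (fun i => D.lbG 4 ls4 (lnG 16 P4 i)) (fun i hi => absurd hi (Nat.not_lt_zero i)) z4_0 rfl
  have h2 : ∀ i < 240, D.lbG 4 ls4 (lnG 16 P4 i) = true :=
    frG_join (fun i => D.lbG 4 ls4 (lnG 16 P4 i)) h1 z4_1 rfl
  have h3 : ∀ i < 360, D.lbG 4 ls4 (lnG 16 P4 i) = true :=
    frG_join (fun i => D.lbG 4 ls4 (lnG 16 P4 i)) h2 z4_2 rfl
  have h4 : ∀ i < 480, D.lbG 4 ls4 (lnG 16 P4 i) = true :=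
    frG_join (fun i => D.lbG 4 ls4 (lnG 16 P4 i)) h3 z4_3 rfl
  have h5 : ∀ i < 600, D.lbG 4 ls4 (lnG 16 P4 i) = true :=
    frG_join (fun i => D.lbG 4 ls4 (lnG 16 P4 i)) h4 z4_4 rfl
  have h6 : ∀ i < 720, D.lbG 4 ls4 (lnG 16 P4 i) = true :=
    frG_join (fun i => D.lbG 4 ls4 (lnG 16 P4 i)) h5 z4_5 rfl
  have h7 : ∀ i < 840, D.lbG 4 ls4 (lnG 16 P4 i) = true :=
    frG_join (fun i => D.lbG 4 ls4 (lnG 16 P4 i)) h6 z4_6 rfl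
  have h8 : ∀ i < 960, D.lbG 4 ls4 (lnG 16 P4 i) = true :=
    frG_join (fun i => D.lbG 4 ls4 (lnG 16 P4 i)) h7 z4_7 rfl
  have h9 : ∀ i < 1024, D.lbG 4 ls4 (lnG 16 P4 i) = true :=
    frG_join (fun i => D.lbG 4 ls4 (lnG 16 P4 i)) h8 z4_8 rfl
  exact frG_all P4 1024 P4_ok _ h9

theorem zA5 : ∀ z < 1024, D.lbG 5 ls5 z = true := by
  have h1 : ∀ i < 120, D.lbG 5 ls5 (lnG 16 P5 i) = true :=
    frG_join (fun i => D.lbG 5 ls5 (lnG 16 P5 i)) (fun i hi => absurd hi (Nat.not_lt_zero i)) z5_0 rfl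
  have h2 : ∀ i < 240, D.lbG 5 ls5 (lnG 16 P5 i) = true :=
    frG_join (fun i => D.lbG 5 ls5 (lnG 16 P5 i)) h1 z5_1 rfl
  have h3 : ∀ i < 360, D.lbG 5 ls5 (lnG 16 P5 i) = true :=
    frG_join (fun i => D.lbG 5 ls5 (lnG 16 P5 i)) h2 z5_2 rfl
  have h4 : ∀ i < 480, D.lbG 5 ls5 (lnG 16 P5 i) = true :=
    frG_join (fun i => D.lbG 5 ls5 (lnG 16 P5 i)) h3 z5_3 rfl
  have h5 : ∀ i < 600, D.lbG 5 ls5 (lnG 16 P5 i) = true :=
    frG_join (fun i => D.lbG 5 ls5 (lnG 16 P5 i)) h4 z5_4 rfl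
  have h6 : ∀ i < 720, D.lbG 5 ls5 (lnG 16 P5 i) = true :=
    frG_join (fun i => D.lbG 5 ls5 (lnG 16 P5 i)) h5 z5_5 rfl
  have h7 : ∀ i < 840, D.lbG 5 ls5 (lnG 16 P5 i) = true :=
    frG_join (fun i => D.lbG 5 ls5 (lnG 16 P5 i)) h6 z5_6 rfl
  have h8 : ∀ i < 960, D.lbG 5 ls5 (lnG 16 P5 i) = true :=
    frG_join (fun i => D.lbG 5 ls5 (lnG 16 P5 i)) h7 z5_7 rfl
  have h9 : ∀ i < 1024, D.lbG 5 ls5 (lnG 16 P5 i) = true :=
    frG_join (fun i => D.lbG 5 ls5 (lnG 16 P5 i)) h8 z5_8 rfl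
  exact frG_all P5 1024 P5_ok _ h9

theorem tp_length : D.tp.length = 6 := rfl

theorem all_types (Q : ℕ → Prop) (h1 : Q 1) (h2 : Q 2) (h3 : Q 3) (h4 : Q 4) (h5 : Q 5) :
    ∀ τ, 0 < τ → τ < D.tp.length → Q τ := by
  intro τ hτ0 hτ
  rw [tp_length] at hτ
  interval_cases τ <;> assumption

theorem tyA : ∀ τ, 0 < τ → τ < D.tp.length → D.tyF 1 21 (D.L τ) = true :=
  all_types _ ty1 ty2 ty3 ty4 ty5

theorem numOK : D.NumOK := TF.numG_spec num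

/-- The conditions on the rows. -/
theorem rowsOK : D.RowsOK := by
  refine ⟨numOK, fun τ => ?_, rfl, ?_⟩
  · rcases Nat.eq_zero_or_pos τ with h1 | h1
    · rw [h1]
      exact TF.tyOK_nil
    · by_cases h2 : τ < D.tp.length
      · exact (TF.tyF_spec numOK (tyA τ h1 h2)).1
      · rw [TF.L_out τ (by omega)]
        exact TF.tyOK_nil
  · exact all_types _
      (fun z hz => (TF.lbG_spec (zA1 z hz)).1)
      (fun z hz => (TF.lbG_spec (zA2 z hz)).1)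
      (fun z hz => (TF.lbG_spec (zA3 z hz)).1)
      (fun z hz => (TF.lbG_spec (zA4 z hz)).1)
      (fun z hz => (TF.lbG_spec (zA5 z hz)).1)

theorem prA : allN D.prG 1024 = true := by decide +kernel

theorem prOK : D.PrOK := TF.prG_spec prA

theorem psdOK : D.fd.PsdOK :=
  TF.psdOK_of rowsOK (fun τ => [F1, F1, F2, F3, F4, F5].getD τ F1)
    (fun τ => [0, 217, 246, 255, 249, 100].getD τ 0) (all_types _ pd1 pd2 pd3 pd4 pd5)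

theorem lsA_good : ∀ L ∈ lsA, L.ac.length = 10 ∧
    D.fd.Good L.ty L.ty L.ab fun k => L.ac.getD k 0 := by
  intro L hL
  unfold lsA at hL
  simp only [List.mem_cons, List.mem_append] at hL
  have hlt : ∀ τ, τ < 6 → τ < D.tp.length := fun τ h => h
  rcases hL with rfl | rfl | rfl | rfl | rfl | h | h | h | h | h
  · exact TF.idL_good 1
  · exact TF.idL_good 2
  · exact TF.idL_good 3
  · exact TF.idL_good 4
  · exact TF.idL_good 5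
  · exact TF.lis_of rowsOK (by norm_num) (hlt 1 (by norm_num)) ls1_ok zA1 L h
  · exact TF.lis_of rowsOK (by norm_num) (hlt 2 (by norm_num)) ls2_ok zA2 L h
  · exact TF.lis_of rowsOK (by norm_num) (hlt 3 (by norm_num)) ls3_ok zA3 L h
  · exact TF.lis_of rowsOK (by norm_num) (hlt 4 (by norm_num)) ls4_ok zA4 L h
  · exact TF.lis_of rowsOK (by norm_num) (hlt 5 (by norm_num)) ls5_ok zA5 L h

theorem iv0 : allN (D.ivkG LT lsA (idL 1) 0) 32 = true := by decide +kernel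
theorem iv1 : allN (D.ivkG LT lsA (idL 1) 1) 32 = true := by decide +kernel
theorem iv2 : allN (D.ivkG LT lsA (idL 1) 2) 32 = true := by decide +kernel
theorem iv3 : allN (D.ivkG LT lsA (idL 1) 3) 32 = true := by decide +kernel

theorem invK : D.fd.InvK := by
  refine TF.invK_ok D LT lsA (idL 1) lsA_good fun i hi => ?_
  interval_cases i
  · exact iv0
  · exact iv1
  · exact iv2
  · exact iv3

theorem symOK : D.SymOK := by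
  intro τ
  rcases Nat.eq_zero_or_pos τ with h1 | h1
  · rw [h1]
    rfl
  · by_cases h2 : τ < D.tp.length
    · exact all_types (fun τ => symG D.W D.of (rwsG (D.L τ)) = true) (PD.sym pd1) (PD.sym pd2) (PD.sym pd3) (PD.sym pd4) (PD.sym pd5) τ h1 h2
    · rw [TF.L_out τ (by omega)]
      rfl

/-- The kernel of the five-vertex types. -/
def kernK : Kern 5 := D.kernK rowsOK psdOK

/-- The kernel as a kernel of pairs. -/
def kernP : PKern 5 := D.kernP rowsOK psdOK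

theorem kernK_f {n : ℕ} (H : Finset (Finset (Fin n))) : kernK.f H = D.fd.kk H := rfl

theorem kernK_perm {n : ℕ} (H : Finset (Finset (Fin n))) (τ : Equiv.Perm (Fin 5))
    (s : Fin 5 → Fin n) (u w : Fin n) : kernK.f H (s ∘ τ) u w = kernK.f H s u w :=
  D.fd.kk_perm invK H τ s u w

end Pool.Agent.Lib.MP_afdd4d_co.K10.DK
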