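import Pool.Agent.Lib.MP_afdd4d_co.K8.KFInv

/-!
# Patterns, maps and programs
-/

namespace Pool.Agent.Lib.MP_afdd4d_co.K10.DK

set_option maxRecDepth 100000
set_option exponentiation.threshold 10000000

open Pool.Agent.Lib.MP_afdd4d_co.K8

/-- The patterns. -/
def tab : ℕ := 0x6880080100100200600400400200005064800801080100100040080102000050601000801400400208008004800000405c8080100080101000400808004000505810400400080102080082000100004054104004020020800020040801000040500110008080048001000900200000304e0020100080400400402002004000504900040400080800480800200100004045000404020200080020200101000040404000408082000101040002200000303d002020004040080020200400400040384008200004080101040080008000303440082000410020001020040080003030080120000900200011002004000020020040080100200400801002004000502d0010010020020060020020010000402900100108008008008008010100004024400200180020011000400220000030210080080100100800800804004000401c408002002001011000408000800030184080020400102000800404008000301408800044000220040004200400002002004008010020040080100200400040120010020020040050020010008000300e0010020400800400801001008000300a0002004400800084008001040000200200400801002004008010020040003006004008002004008400801000400020020040080100200400801002004000200200400801002004008010020040001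

/-- The programs of the patterns. -/
def prg : List (List (ℕ × ℕ × ℕ)) := [
  [], [(1, 1, 4), (1, 2, 5), (1, 3, 6)],
  [(1, 0, 4), (1, 1, 4), (1, 2, 5), (1, 3, 6), (1, 5, 7), (1, 6, 8)],
  [(1, 0, 1), (1, 5, 7), (1, 6, 8)],
  [(1, 0, 1), (1, 1, 4), (1, 2, 7), (1, 3, 8), (1, 5, 7), (1, 6, 8)],
  [(1, 0, 4), (1, 1, 5), (1, 2, 4), (1, 3, 6), (1, 4, 7), (1, 6, 8), (1, 8, 9)],
  [(1, 0, 1), (1, 1, 2), (1, 4, 7), (1, 5, 7), (1, 6, 8), (1, 8, 9)],
  [(1, 0, 1), (1, 1, 7), (1, 2, 4), (1, 3, 8), (1, 5, 7), (1, 6, 8), (1, 8, 9)],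
  [(1, 1, 2), (1, 4, 5), (1, 8, 9)], [(1, 0, 7), (1, 2, 4), (1, 3, 8), (1, 6, 9)],
  [(1, 0, 2), (1, 1, 2), (1, 4, 5), (1, 5, 7), (1, 6, 9), (1, 8, 9)],
  [(1, 0, 2), (1, 1, 5), (1, 2, 7), (1, 3, 9), (1, 4, 7), (1, 6, 9), (1, 8, 9)],
  [(1, 0, 4), (1, 1, 5), (1, 2, 6), (1, 3, 4), (1, 4, 7), (1, 5, 8), (1, 6, 8), (1, 7, 9)],
  [(1, 0, 1), (1, 1, 2), (1, 2, 3), (1, 4, 7), (1, 5, 8), (1, 6, 7), (1, 7, 9)],
  [(1, 0, 1), (1, 1, 7), (1, 2, 8), (1, 3, 4), (1, 4, 8), (1, 5, 8), (1, 6, 7), (1, 7, 9)],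
  [(1, 1, 2), (1, 2, 3), (1, 4, 5), (1, 5, 6), (1, 7, 9), (1, 8, 9)],
  [(1, 0, 7), (1, 2, 8), (1, 3, 4), (1, 4, 8), (1, 5, 9), (1, 6, 9), (1, 7, 8)],
  [(1, 0, 2), (1, 1, 2), (1, 2, 3), (1, 4, 5), (1, 5, 9), (1, 6, 7), (1, 8, 9)],
  [(1, 0, 2), (1, 1, 5), (1, 2, 9), (1, 3, 7), (1, 4, 9), (1, 5, 7), (1, 6, 7), (1, 8, 9)],
  [(1, 2, 3), (1, 5, 6), (1, 7, 8)],
  [(1, 0, 7), (1, 1, 8), (1, 2, 8), (1, 3, 4), (1, 4, 9), (1, 5, 8), (1, 6, 8), (1, 7, 9)],
  [(1, 0, 2), (1, 1, 3), (1, 4, 9), (1, 6, 7)],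
  [(1, 0, 2), (1, 1, 9), (1, 2, 5), (1, 3, 7), (1, 4, 7), (1, 6, 9), (1, 7, 9)],
  [(1, 1, 3), (1, 2, 3), (1, 4, 6), (1, 5, 6), (1, 7, 8), (1, 8, 9)],
  [(1, 0, 9), (1, 1, 2), (1, 2, 5), (1, 3, 7), (1, 4, 7), (1, 5, 6), (1, 6, 8), (1, 7, 9)],
  [(1, 0, 3), (1, 1, 3), (1, 2, 3), (1, 4, 6), (1, 5, 8), (1, 6, 9), (1, 7, 9)],
  [(1, 0, 3), (1, 1, 6), (1, 2, 8), (1, 3, 9), (1, 4, 9), (1, 5, 6), (1, 6, 8), (1, 7, 9)]]

end Pool.Agent.Lib.MP_afdd4d_co.K10.DK
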